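import Pool.Agent.W212.EFF.Ineq
import Pool.Agent.W212.EFF.Upper

/-!
# The strong form of the conjecture of Erdős, Frankl and Füredi on cover-free families

`IsCoverFree t F`: no member of the finite family `F` is contained in the union of at most `t` other
members. `Nstar t` is the least `n` such that some `t`-cover-free family of subsets of an `n`-set has
more than `n` members.

Theorem. `Nstar t ≥ (t + 1) ^ 2` for every `t ≥ 1` (Erdős, Frankl, Füredi 1985, conjecture; Q2), and
equality holds if `t + 1` is prime.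

Proof. More is true: if the characteristic vectors of the members of a `t`-cover-free family `F` are
linearly dependent over the reals then the ground set has at least `(t + 1) ^ 2` points. Let
`∑ γ_A 1_A = 0` be a dependency, `P` and `N` the sets of the `A` with `γ_A > 0` and `γ_A < 0`, and
`f = ∑_{A ∈ P} γ_A 1_A = ∑_{B ∈ N} |γ_B| 1_B`. Let `α` and `β` be the sums of the `γ_A`, `A ∈ P`, and of
the `|γ_B|`, `B ∈ N`. A member `A` of `P` is contained in the union of the members of `N`, but not in the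
union of `t` of them. By the inequality `main_ineq` of the starting library (for weights on sets which
cover `A`, the square of the cover number of `A` is at most the total weight times the sum of the
reciprocals of the weights at the points of `A`) one has `(t + 1) ^ 2 ≤ β ∑_{v ∈ A} 1 / f v`. Multiply
by `γ_A` and sum over `A ∈ P`: `(t + 1) ^ 2 α ≤ β ∑_v f v * (1 / f v) ≤ β n`. By symmetry
`(t + 1) ^ 2 β ≤ α n`. The sum of the two is `(t + 1) ^ 2 (α + β) ≤ n (α + β)`.
-/

set_option autoImplicit false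

namespace Pool.Agent.Results.MP_0b1105_co.StrongForm

open Finset Pool.Agent.W212.EFF

variable {V : Type*} [DecidableEq V]

/-- `F` is `t`-cover-free: no member is contained in the union of at most `t` other members -/
def IsCoverFree {V : Type*} [DecidableEq V] (t : ℕ) (F : Finset (Finset V)) : Prop :=
  ∀ A ∈ F, ∀ G ⊆ F.erase A, G.card ≤ t → ¬ A ⊆ G.sup id

/-- the least `n` such that some `t`-cover-free family of subsets of an `n`-set has more than `n`
members -/
noncomputable def Nstar (t : ℕ) : ℕ :=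
  sInf {n : ℕ | ∃ F : Finset (Finset (Fin n)), IsCoverFree t F ∧ n < F.card}

/-- covers by faces of the complex generated by `N` give covers by members of `N` -/
lemma cov_members {N : Finset (Finset V)} {A : Finset V} (hpriv : ∀ x ∈ A, ∃ B ∈ N, x ∈ B) :
    ∀ {k : ℕ} {C : Finset V}, C ⊆ A → Cov (face N (fun B : Finset V => B)) k C →
    ∃ G ⊆ N, G.card ≤ k ∧ C ⊆ G.sup id
  | 0, C, _, h => by
      simp only [Cov] at h
      subst h
      exact ⟨∅, by simp, by simp, by simp⟩
  | k + 1, C, hC, h => by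
      classical
      obtain ⟨T, hT, h1⟩ := h
      obtain ⟨G, hG, hGc, hGs⟩ := cov_members hpriv (Finset.sdiff_subset.trans hC) h1
      have hred : ∀ B ∈ N, C ∩ T ⊆ B → ∃ G ⊆ N, G.card ≤ k + 1 ∧ C ⊆ G.sup id := by
        intro B hB hCB
        refine ⟨insert B G, Finset.insert_subset hB hG, (Finset.card_insert_le _ _).trans
          (by omega), ?_⟩
        intro x hx
        rw [Finset.sup_insert]
        by_cases hxT : x ∈ T
        · exact Finset.mem_union_left _ (hCB (Finset.mem_inter.2 ⟨hx, hxT⟩))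
        · exact Finset.mem_union_right _ (hGs (Finset.mem_sdiff.2 ⟨hx, hxT⟩))
      rcases hT with hT | ⟨i, hi, hi'⟩
      · by_cases hCT : (C ∩ T).Nonempty
        · obtain ⟨x, hx⟩ := hCT
          have hx' := Finset.mem_inter.1 hx
          obtain ⟨B, hB, hxB⟩ := hpriv x (hC hx'.1)
          refine hred B hB ?_
          intro y hy
          have hy' := Finset.mem_inter.1 hy
          have := Finset.card_le_one.1 hT y hy'.2 x hx'.2
          rw [this]
          exact hxB
        · rw [Finset.not_nonempty_iff_eq_empty] at hCT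
          refine ⟨G, hG, by omega, ?_⟩
          intro x hx
          apply hGs
          refine Finset.mem_sdiff.2 ⟨hx, fun hxT => ?_⟩
          have : x ∈ C ∩ T := Finset.mem_inter.2 ⟨hx, hxT⟩
          rw [hCT] at this
          exact absurd this (Finset.notMem_empty x)
      · exact hred i hi (Finset.inter_subset_right.trans hi')

/-- one half of the inequality -/
lemma half {t : ℕ} {X : Finset V} {P N : Finset (Finset V)} {a b : Finset V → ℝ}
    (ha : ∀ A ∈ P, 0 < a A) (hb : ∀ B ∈ N, 0 < b B)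
    (hf : ∀ v, ∑ A ∈ P.filter (fun A => v ∈ A), a A = ∑ B ∈ N.filter (fun B => v ∈ B), b B)
    (hcov : ∀ A ∈ P, ∀ G ⊆ N, G.card ≤ t → ¬ A ⊆ G.sup id) (hX : ∀ A ∈ P, A ⊆ X) :
    ((t : ℝ) + 1) ^ 2 * ∑ A ∈ P, a A ≤ X.card * ∑ B ∈ N, b B := by
  classical
  set f : V → ℝ := fun v => ∑ A ∈ P.filter (fun A => v ∈ A), a A with hfdef
  have hpw : ∀ v, pw N (fun B : Finset V => B) b v = f v := fun v => (hf v).symm
  have hf0 : ∀ v, 0 ≤ f v := fun v =>
    Finset.sum_nonneg fun A hA => (ha A (Finset.mem_filter.1 hA).1).le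
  have hfpos : ∀ A ∈ P, ∀ v ∈ A, 0 < f v := by
    intro A hA v hv
    refine lt_of_lt_of_le (ha A hA) ?_
    exact Finset.single_le_sum (f := a)
      (fun B hB => (ha B (Finset.mem_filter.1 hB).1).le) (Finset.mem_filter.2 ⟨hA, hv⟩)
  have hβ : 0 ≤ ∑ B ∈ N, b B := Finset.sum_nonneg fun B hB => (hb B hB).le
  have hone : ∀ A ∈ P, ((t : ℝ) + 1) ^ 2 ≤ (∑ B ∈ N, b B) * ∑ v ∈ A, 1 / f v := by
    intro A hA
    have hpos : ∀ v ∈ A, 0 < pw N (fun B : Finset V => B) b v := fun v hv => by
      rw [hpw]; exact hfpos A hA v hv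
    have hpriv : ∀ x ∈ A, ∃ B ∈ N, x ∈ B := by
      intro x hx
      have h1 := hpos x hx
      by_contra hno
      push Not at hno
      have h2 : pw N (fun B : Finset V => B) b x = 0 := by
        unfold pw
        rw [Finset.filter_eq_empty_iff.2 (fun B hB => hno B hB), Finset.sum_empty]
      rw [h2] at h1
      exact lt_irrefl _ h1
    have h1 := main_ineq (I := N) (S := fun B : Finset V => B) (w := b)
      (fun B hB => (hb B hB).le) A.card A (le_refl _) hpos
    have h2 : t + 1 ≤ Y (face N (fun B : Finset V => B)) A := by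
      by_contra hlt
      push Not at hlt
      obtain ⟨G, hG, hGc, hGs⟩ := cov_members hpriv (Finset.Subset.refl A)
        (Y_spec (face_cpx _ _) A)
      exact hcov A hA G hG (by omega) hGs
    have h3 : ((t : ℝ) + 1) ≤ Y (face N (fun B : Finset V => B)) A := by exact_mod_cast h2
    have h4 : ∑ v ∈ A, 1 / pw N (fun B : Finset V => B) b v = ∑ v ∈ A, 1 / f v :=
      Finset.sum_congr rfl fun v _ => by rw [hpw]
    rw [h4] at h1
    have h5 : tw N (fun B : Finset V => B) b A ≤ ∑ B ∈ N, b B :=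
      Finset.sum_le_sum_of_subset_of_nonneg (Finset.filter_subset _ _) fun B hB _ => (hb B hB).le
    have h6 : 0 ≤ ∑ v ∈ A, 1 / f v :=
      Finset.sum_nonneg fun v hv => (one_div_pos.2 (hfpos A hA v hv)).le
    calc ((t : ℝ) + 1) ^ 2 ≤ (Y (face N (fun B : Finset V => B)) A : ℝ) ^ 2 :=
          pow_le_pow_left₀ (by positivity) h3 2
      _ ≤ _ := h1
      _ ≤ _ := mul_le_mul_of_nonneg_right h5 h6
  have hsum : ∑ A ∈ P, a A * ∑ v ∈ A, 1 / f v ≤ X.card := by
    have h1 : ∑ A ∈ P, a A * ∑ v ∈ A, 1 / f v =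
        ∑ v ∈ X, ∑ A ∈ P.filter (fun A => v ∈ A), a A * (1 / f v) := by
      have h2 : ∀ A ∈ P, a A * ∑ v ∈ A, 1 / f v =
          ∑ v ∈ X, if v ∈ A then a A * (1 / f v) else 0 := by
        intro A hA
        rw [Finset.mul_sum, ← Finset.sum_filter]
        apply Finset.sum_congr _ (fun _ _ => rfl)
        ext v
        simp only [Finset.mem_filter]
        exact ⟨fun h => ⟨hX A hA h, h⟩, fun h => h.2⟩
      rw [Finset.sum_congr rfl h2, Finset.sum_comm]
      apply Finset.sum_congr rfl
      intro v _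
      exact (Finset.sum_filter (fun A => v ∈ A) (fun A => a A * (1 / f v))).symm
    rw [h1]
    have h3 : ∑ v ∈ X, ∑ A ∈ P.filter (fun A => v ∈ A), a A * (1 / f v) ≤ ∑ v ∈ X, (1 : ℝ) := by
      apply Finset.sum_le_sum
      intro v _
      rw [← Finset.sum_mul]
      change f v * (1 / f v) ≤ 1
      rw [mul_one_div]
      exact div_self_le_one _
    refine h3.trans ?_
    simp
  calc ((t : ℝ) + 1) ^ 2 * ∑ A ∈ P, a A = ∑ A ∈ P, a A * ((t : ℝ) + 1) ^ 2 := by
        rw [Finset.mul_sum]
        exact Finset.sum_congr rfl fun A _ => mul_comm _ _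
    _ ≤ ∑ A ∈ P, a A * ((∑ B ∈ N, b B) * ∑ v ∈ A, 1 / f v) :=
        Finset.sum_le_sum fun A hA => mul_le_mul_of_nonneg_left (hone A hA) (ha A hA).le
    _ = (∑ B ∈ N, b B) * ∑ A ∈ P, a A * ∑ v ∈ A, 1 / f v := by
        rw [Finset.mul_sum]
        exact Finset.sum_congr rfl fun A _ => by ring
    _ ≤ (∑ B ∈ N, b B) * X.card := mul_le_mul_of_nonneg_left hsum hβ
    _ = _ := mul_comm _ _

/-- **Linear form.** If the characteristic vectors of the members of a `t`-cover-free family on the
ground set `X` satisfy a nontrivial linear relation over the reals, then `X` has at least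
`(t + 1) ^ 2` points. -/
theorem linear_form {t : ℕ} {X : Finset V} {F : Finset (Finset V)} (hX : ∀ A ∈ F, A ⊆ X)
    (hF : IsCoverFree t F) {γ : Finset V → ℝ}
    (hγ : ∀ v, ∑ A ∈ F.filter (fun A => v ∈ A), γ A = 0) (hne : ∃ A ∈ F, γ A ≠ 0) :
    (t + 1) ^ 2 ≤ X.card := by
  classical
  set P := F.filter (fun A => 0 < γ A) with hP
  set N := F.filter (fun A => γ A < 0) with hN
  have hsplit : ∀ v, ∑ A ∈ P.filter (fun A => v ∈ A), γ A =
      ∑ B ∈ N.filter (fun B => v ∈ B), (-γ B) := by
    intro v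
    have h0 : ∑ A ∈ F.filter (fun A => v ∈ A), γ A =
        ∑ A ∈ P.filter (fun A => v ∈ A), γ A + ∑ B ∈ N.filter (fun B => v ∈ B), γ B := by
      simp only [hP, hN, Finset.sum_filter, Finset.filter_filter]
      rw [← Finset.sum_add_distrib]
      apply Finset.sum_congr rfl
      intro A _
      rcases lt_trichotomy (γ A) 0 with h | h | h
      · by_cases hv : v ∈ A <;> simp [h, hv, not_lt.2 h.le]
      · by_cases hv : v ∈ A <;> simp [h]
      · by_cases hv : v ∈ A <;> simp [h, hv, not_lt.2 h.le]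
    rw [hγ v] at h0
    rw [Finset.sum_neg_distrib]
    linarith
  have hP0 : ∀ A ∈ P, 0 < γ A := fun A hA => (Finset.mem_filter.1 hA).2
  have hN0 : ∀ A ∈ N, 0 < -γ A := fun A hA => neg_pos.2 (Finset.mem_filter.1 hA).2
  have hPF : ∀ A ∈ P, A ∈ F := fun A hA => (Finset.mem_filter.1 hA).1
  have hNF : ∀ A ∈ N, A ∈ F := fun A hA => (Finset.mem_filter.1 hA).1
  have hcP : ∀ A ∈ P, ∀ G ⊆ N, G.card ≤ t → ¬ A ⊆ G.sup id := by
    intro A hA G hG hGc
    apply hF A (hPF A hA) G _ hGc
    intro B hB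
    refine Finset.mem_erase.2 ⟨fun hc => ?_, hNF B (hG hB)⟩
    subst hc
    have h1 := hP0 B hA
    have h2 := hN0 B (hG hB)
    linarith
  have hcN : ∀ A ∈ N, ∀ G ⊆ P, G.card ≤ t → ¬ A ⊆ G.sup id := by
    intro A hA G hG hGc
    apply hF A (hNF A hA) G _ hGc
    intro B hB
    refine Finset.mem_erase.2 ⟨fun hc => ?_, hPF B (hG hB)⟩
    subst hc
    have h1 := hN0 B hA
    have h2 := hP0 B (hG hB)
    linarith
  have h1 := half hP0 hN0 hsplit hcP (fun A hA => hX A (hPF A hA))
  have h2 := half hN0 hP0 (fun v => (hsplit v).symm) hcN (fun A hA => hX A (hNF A hA))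
  have hpos : 0 < ∑ A ∈ P, γ A + ∑ B ∈ N, (-γ B) := by
    have hα : 0 ≤ ∑ A ∈ P, γ A := Finset.sum_nonneg fun A hA => (hP0 A hA).le
    have hβ : 0 ≤ ∑ B ∈ N, (-γ B) := Finset.sum_nonneg fun A hA => (hN0 A hA).le
    obtain ⟨A, hA, hA0⟩ := hne
    rcases lt_or_gt_of_ne hA0 with h | h
    · have hAN : A ∈ N := Finset.mem_filter.2 ⟨hA, h⟩
      have : 0 < ∑ B ∈ N, (-γ B) := Finset.sum_pos hN0 ⟨A, hAN⟩
      linarith
    · have hAP : A ∈ P := Finset.mem_filter.2 ⟨hA, h⟩
      have : 0 < ∑ A ∈ P, γ A := Finset.sum_pos hP0 ⟨A, hAP⟩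
      linarith
  have h3 : ((t : ℝ) + 1) ^ 2 * (∑ A ∈ P, γ A + ∑ B ∈ N, (-γ B)) ≤
      X.card * (∑ A ∈ P, γ A + ∑ B ∈ N, (-γ B)) := by
    rw [mul_add, mul_add]
    linarith
  have h4 := le_of_mul_le_mul_right h3 hpos
  exact_mod_cast h4

/-- a `t`-cover-free family with more members than points lives on at least `(t + 1) ^ 2` points -/
theorem strong_form {t : ℕ} {X : Finset V} {F : Finset (Finset V)} (hX : ∀ A ∈ F, A ⊆ X)
    (hF : IsCoverFree t F) (hlt : X.card < F.card) : (t + 1) ^ 2 ≤ X.card := by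
  classical
  have hdep : ¬ LinearIndependent ℝ (fun A : ↥F => fun x : ↥X => if (x : V) ∈ A.1 then (1 : ℝ) else 0) := by
    intro h
    have h1 := h.fintype_card_le_finrank
    rw [Fintype.card_coe, Module.finrank_fintype_fun_eq_card, Fintype.card_coe] at h1
    omega
  rw [Fintype.not_linearIndependent_iff] at hdep
  obtain ⟨g, hg, A0, hA0⟩ := hdep
  refine linear_form (γ := fun A => if h : A ∈ F then g ⟨A, h⟩ else 0) hX hF ?_
    ⟨A0.1, A0.2, by simpa using hA0⟩
  intro v
  by_cases hv : v ∈ X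
  · have h1 := congrFun hg ⟨v, hv⟩
    simp only [Finset.sum_apply, Pi.smul_apply, smul_eq_mul, Pi.zero_apply] at h1
    rw [← h1, Finset.sum_filter, ← Finset.sum_coe_sort F]
    apply Finset.sum_congr rfl
    intro A _
    by_cases hvA : v ∈ A.1 <;> simp [hvA]
  · apply Finset.sum_eq_zero
    intro A hA
    have hA' := Finset.mem_filter.1 hA
    exact absurd (hX A hA'.1 hA'.2) hv

/-- **The strong form of the conjecture of Erdős, Frankl and Füredi** (Q2 of MP_0b1105_co):
`N*(t) ≥ (t + 1) ^ 2` for every `t ≥ 1`, where `N*(t)` is the least `n` for which some `t`-cover-free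
family of subsets of an `n`-set has more than `n` members; such an `n` exists, and `N*(t) = (t + 1) ^ 2`
if `t + 1` is prime. -/
theorem result : ∀ t : ℕ, 1 ≤ t →
    {n : ℕ | ∃ F : Finset (Finset (Fin n)), IsCoverFree t F ∧ n < F.card}.Nonempty ∧
    (t + 1) ^ 2 ≤ Nstar t ∧ ((t + 1).Prime → Nstar t = (t + 1) ^ 2) := by
  intro t ht
  have hne : {n : ℕ | ∃ F : Finset (Finset (Fin n)), IsCoverFree t F ∧ n < F.card}.Nonempty := by
    obtain ⟨p, hp1, hp2⟩ := Nat.exists_infinite_primes (t + 1)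
    obtain ⟨F, hF1, hF2⟩ := plane hp2 (by omega : t < p)
    exact ⟨p ^ 2, F, hF2, hF1⟩
  have hlow : (t + 1) ^ 2 ≤ Nstar t := by
    obtain ⟨F, hF1, hF2⟩ := Nat.sInf_mem hne
    have h1 := strong_form (X := Finset.univ) (fun A _ => Finset.subset_univ A) hF1
      (by rw [Finset.card_univ, Fintype.card_fin]; exact hF2)
    rw [Finset.card_univ, Fintype.card_fin] at h1
    exact h1
  refine ⟨hne, hlow, fun hp => le_antisymm ?_ hlow⟩
  obtain ⟨F, hF1, hF2⟩ := plane hp (by omega : t < t + 1)
  exact Nat.sInf_le ⟨F, hF2, hF1⟩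

end Pool.Agent.Results.MP_0b1105_co.StrongForm
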